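import Pool.Agent.P.MP_917bd5_an.NlD

/-! A separable real Banach space is reflexive if and only if, for every nonempty closed bounded
convex set, the points that have a nearest point in the set are somewhere dense. -/

set_option autoImplicit false

namespace Pool.Agent.Results.MP_917bd5_an.ConvexNowhereDense

open Metric Set Pool.Agent.MP917bd5

theorem result (E : Type) [NormedAddCommGroup E] [NormedSpace ℝ E] [CompleteSpace E]
    [TopologicalSpace.SeparableSpace E] :
    Function.Surjective (NormedSpace.inclusionInDoubleDual ℝ E) ↔
      ∀ G : Set E, IsClosed G → G.Nonempty → Bornology.IsBounded G → Convex ℝ G →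
        ¬ IsNowhereDense {x : E | ∃ y : E, y ∈ G ∧ dist x y = Metric.infDist x G} := by
  constructor
  · intro hr G hcl hne _ hG h
    have h1 : {x : E | ∃ y : E, y ∈ G ∧ dist x y = Metric.infDist x G} = univ :=
      eq_univ_of_forall fun x => proximinal hr hcl hG hne x
    rw [h1, IsNowhereDense, closure_univ, interior_univ] at h
    exact univ_nonempty.ne_empty h
  · intro h
    by_contra hnr
    obtain ⟨G, h1, h2, h3, h4, h5⟩ := Nl.main_convex hnr
    exact h G h1 h2 h3 h4 h5

end Pool.Agent.Results.MP_917bd5_an.ConvexNowhereDense
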