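import Pool.Agent.P.MP_917bd5_an.KD
import Pool.Agent.P.MP_917bd5_an.NlD

set_option autoImplicit false

namespace Pool.Agent.Results.MP_917bd5_an.DentingCap

open Pool.Agent.MP917bd5

/-- The separable Banach spaces in which the points with exactly one nearest point in `G` form a
set of the second category for every bounded closed `G` are exactly the reflexive spaces whose
unit sphere has a cap consisting of denting points of the unit ball. -/
theorem result (E : Type) [NormedAddCommGroup E] [NormedSpace ℝ E] [CompleteSpace E]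
    [TopologicalSpace.SeparableSpace E] [Nontrivial E] :
    List.TFAE
      [∀ G : Set E, IsClosed G → G.Nonempty → Bornology.IsBounded G →
          ∃ (x₀ : E) (r : ℝ), 0 < r ∧ IsMeagre (Metric.ball x₀ r \
            {x : E | ∃! y : E, y ∈ G ∧ dist x y = Metric.infDist x G}),
        ∀ G : Set E, IsClosed G → G.Nonempty → Bornology.IsBounded G →
          ¬ IsMeagre {x : E | ∃! y : E, y ∈ G ∧ dist x y = Metric.infDist x G},
        ∀ G : Set E, IsClosed G → G.Nonempty → Bornology.IsBounded G →
          ¬ IsNowhereDense {x : E | ∃! y : E, y ∈ G ∧ dist x y = Metric.infDist x G},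
        Function.Surjective (NormedSpace.inclusionInDoubleDual ℝ E) ∧
          ∃ (u : E) (σ : ℝ), ‖u‖ = 1 ∧ 0 < σ ∧ ∀ x : E, ‖x‖ = 1 → ‖x - u‖ < σ →
            ∀ ε : ℝ, 0 < ε → ∃ (f : StrongDual ℝ E) (a : ℝ), a < f x ∧
              ∀ y : E, ‖y‖ ≤ 1 → a < f y → ‖y - x‖ < ε] := by
  tfae_have 1 → 2 := by
    intro h G h1 h2 h3 hm
    obtain ⟨x₀, r, hr, h4⟩ := h G h1 h2 h3
    have h5 : IsMeagre (Metric.ball x₀ r) :=
      (h4.union hm).mono (by rw [Set.sdiff_union_self]; exact Set.subset_union_left)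
    exact not_isMeagre_of_isOpen Metric.isOpen_ball ⟨x₀, Metric.mem_ball_self hr⟩ h5
  tfae_have 2 → 3 := fun h G h1 h2 h3 hn => h G h1 h2 h3 hn.isMeagre
  tfae_have 3 → 4 := by
    intro h
    have hr : Function.Surjective (J E) := by
      by_contra hnr
      obtain ⟨G, h1, h2, h3, -, h4⟩ := Nl.main_convex hnr
      exact h G h1 h2 h3 (h4.mono fun x hx => hx.exists)
    refine ⟨hr, ?_⟩
    by_contra hc
    obtain ⟨G, h1, h2, h3, h4⟩ := K.exists_bad hr fun u hu σ hσ => by
      by_contra hx
      push Not at hx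
      exact hc ⟨u, σ, hu, hσ, hx⟩
    exact h G h1 h2 h3 h4
  tfae_have 4 → 1 := by
    rintro ⟨hr, u, σ, hu, hσ, hcap⟩ G h1 h2 h3
    exact K.residual_ball hr hu hσ hcap h1 h2 h3
  tfae_finish

end Pool.Agent.Results.MP_917bd5_an.DentingCap
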