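import Pool.Agent.P.MP_917bd5_an.NnE

set_option autoImplicit false

namespace Pool.Agent.Results.MP_917bd5_an.NoNearest

/-- Every infinite-dimensional separable reflexive space has an almost isometric, strictly convex,
weakly uniformly rotund renorming with a nonempty closed nowhere dense set `G` such that no point
outside `G` has a nearest point in `G`. -/
theorem result (E : Type) [NormedAddCommGroup E] [NormedSpace ℝ E] [CompleteSpace E]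
    [TopologicalSpace.SeparableSpace E] (hE : ¬ FiniteDimensional ℝ E)
    (hr : Function.Surjective (NormedSpace.inclusionInDoubleDual ℝ E)) (ε : ℝ) (hε : 0 < ε) :
    ∃ (F : Type) (_ : NormedAddCommGroup F) (_ : NormedSpace ℝ F) (T : E ≃L[ℝ] F),
      CompleteSpace F ∧ Function.Surjective (NormedSpace.inclusionInDoubleDual ℝ F) ∧
      (∀ x : E, ‖x‖ ≤ (1 + ε) * ‖T x‖ ∧ ‖T x‖ ≤ (1 + ε) * ‖x‖) ∧
      (∀ x y : F, ‖x‖ = 1 → ‖y‖ = 1 → x ≠ y → ‖x + y‖ < 2) ∧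
      (∀ (f : StrongDual ℝ F) (η : ℝ), 0 < η → ∃ δ : ℝ, 0 < δ ∧
        ∀ x y : F, ‖x‖ ≤ 1 → ‖y‖ ≤ 1 → 2 - δ ≤ ‖x + y‖ → |f (x - y)| ≤ η) ∧
      ((∃ S : ℝ, ∀ x h : E, ‖x + h‖ ^ 2 + ‖x - h‖ ^ 2 ≤ 2 * ‖x‖ ^ 2 + S * ‖h‖ ^ 2) →
        ∃ S : ℝ, ∀ x h : F, ‖x + h‖ ^ 2 + ‖x - h‖ ^ 2 ≤ 2 * ‖x‖ ^ 2 + S * ‖h‖ ^ 2) ∧
      ∃ G : Set F, IsClosed G ∧ G.Nonempty ∧ IsNowhereDense G ∧
        (∀ x : F, x ∉ G → ∀ y ∈ G, Metric.infDist x G < dist x y) ∧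
        {x : F | ∃! y : F, y ∈ G ∧ dist x y = Metric.infDist x G} = G :=
  Pool.Agent.MP917bd5.Nn.main E hE hr ε hε

end Pool.Agent.Results.MP_917bd5_an.NoNearest
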