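import Pool.Agent.P.MP_917bd5_an.StC
import Pool.Agent.P.MP_917bd5_an.StE

set_option autoImplicit false

namespace Pool.Agent.Results.MP_917bd5_an.Stechkin

open Pool.Agent.MP917bd5.St

/-- A strictly convex renorming of `ℓ¹(ℝ)` with a closed set `G` such that, outside a set of the first
category, every point has uncountably many nearest points in `G`. -/
theorem result :
    ∃ (E : Type) (_ : NormedAddCommGroup E) (_ : NormedSpace ℝ E), CompleteSpace E ∧
      Nonempty (E ≃L[ℝ] lp (fun _ : ℝ => ℝ) 1) ∧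
      (∀ x y : E, ‖x‖ = 1 → ‖y‖ = 1 → x ≠ y → ‖x + y‖ < 2) ∧
      ∃ G : Set E, IsClosed G ∧ G.Nonempty ∧
        IsMeagre {x : E | {y ∈ G | dist x y = Metric.infDist x G}.Countable} := by
  obtain ⟨i, e, hb⟩ := exists_book_real
  exact renorm_main (@NN ℝ i e) (@Phi ℝ i e) (@norm_le_Phi ℝ i e) (@Phi_le_NN ℝ i e)
    (@NN_le_norm ℝ i e) (@NN_strict ℝ i e hb)
    (fun n => interior (@AA ℝ i e n)) (fun _ => isOpen_interior) (@dense_AA ℝ i e hb)
    (fun x hx => @good_AA ℝ i e hb x fun n => interior_subset (hx n))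

end Pool.Agent.Results.MP_917bd5_an.Stechkin
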